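import Pool.Agent.H38.PR.Defs

/-! # The combinatorial reduction for `2 x + 2 √2 y = w z ^ 3` -/

set_option autoImplicit false

namespace Pool.Agent.H40.PR

open Filter
open Pool.Agent.H38.PR

theorem pos_one : Pos 1 := by
  constructor
  · rw [map_one]; exact one_pos
  · rw [map_one]; exact one_pos

theorem pos_mul {a b : O} (ha : Pos a) (hb : Pos b) : Pos (a * b) := by
  constructor
  · rw [map_mul]; exact mul_pos ha.1 hb.1
  · rw [map_mul]; exact mul_pos ha.2 hb.2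

theorem pos_pow {a : O} (ha : Pos a) (n : ℕ) : Pos (a ^ n) := by
  induction n with
  | zero => rw [pow_zero]; exact pos_one
  | succ n ih => rw [pow_succ]; exact pos_mul ih ha

theorem rt_sq : rt * rt = 2 := by
  ext <;> simp [rt]

theorem s1_rt : s1 rt = √2 := by
  simp [s1, rt]

theorem s2_rt : s2 rt = -√2 := by
  simp [s2, rt]

theorem pos_lam {g ρ : O} (hg : Pos g) (hρ : Neg ρ) : Pos (rt * g * ρ) := by
  have h2 : 0 < √(2 : ℝ) := by positivity
  constructor
  · rw [map_mul, map_mul, s1_rt]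
    exact mul_pos (mul_pos h2 hg.1) hρ.1
  · rw [map_mul, map_mul, s2_rt]
    have h1 := mul_pos (mul_pos h2 hg.2) (neg_pos.2 hρ.2)
    linarith

section ultra
variable {α : Type*}

theorem ulim (U : Ultrafilter α) {κ : Type*} [Finite κ] (φ : α → κ) : ∃ i, ∀ᶠ a in U, φ a = i := by
  by_contra hcon
  push Not at hcon
  have h1 : ∀ i, ∀ᶠ a in (U : Filter α), ¬ φ a = i := hcon
  have h2 : ∀ᶠ a in (U : Filter α), ∀ i, ¬ φ a = i := eventually_all.2 h1
  obtain ⟨a, ha⟩ := h2.exists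
  exact ha (φ a) rfl

theorem ulim_finset (U : Ultrafilter α) {β : Type*} (F : Finset β) (P : β → α → Prop)
    (h : ∀ a, ∃ f ∈ F, P f a) : ∃ f ∈ F, ∀ᶠ a in U, P f a := by
  by_contra hcon
  push Not at hcon
  have h1 : ∀ f ∈ F, ∀ᶠ a in (U : Filter α), ¬ P f a := hcon
  have h2 : ∀ᶠ a in (U : Filter α), ∀ f ∈ F, ¬ P f a := (eventually_all_finset F).2 h1
  obtain ⟨a, ha⟩ := h2.exists
  obtain ⟨f, hf, hP⟩ := h a
  exact ha f hf hP

end ultra

/-- the limit colouring -/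
theorem limcol {κ : Type} [Finite κ] (k : O → κ) : ∃ (k' : O → κ) (R : Finset κ), R.Nonempty ∧
    (∀ H : Finset O, ∃ g, Pos g ∧ ∀ h ∈ H, k (g * h) = k' h) ∧
    (∀ i ∈ R, ∃ F : Finset O, (∀ f ∈ F, Pos f) ∧ ∀ h, Pos h → ∃ f ∈ F, k' (f * h) = i) ∧
    (∀ H : Finset O, (∀ h ∈ H, Pos h) → ∃ g, Pos g ∧ ∀ h ∈ H, k (g * h) ∈ R) := by
  classical
  have : Fintype κ := Fintype.ofFinite κ
  let good : Finset κ → Prop := fun R => ∀ H : Finset O, (∀ h ∈ H, Pos h) →
    ∃ g, Pos g ∧ ∀ h ∈ H, k (g * h) ∈ R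
  have huniv : good Finset.univ := fun H _ => ⟨1, pos_one, fun h _ => Finset.mem_univ _⟩
  obtain ⟨R, hR, hmin⟩ := (wellFounded_lt (α := Finset κ)).has_min {R | good R} ⟨_, huniv⟩
  have hRne : R.Nonempty := by
    obtain ⟨g, -, hg⟩ := hR {1} (by simp [pos_one])
    exact ⟨_, hg 1 (Finset.mem_singleton_self _)⟩
  have hgood : ∀ H : Finset O, ∃ g, Pos g ∧ ∀ h ∈ H, Pos h → k (g * h) ∈ R := by
    intro H
    obtain ⟨g, hg, hgH⟩ := hR (H.filter Pos) (fun h hh => (Finset.mem_filter.1 hh).2)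
    exact ⟨g, hg, fun h hh hp => hgH h (Finset.mem_filter.2 ⟨hh, hp⟩)⟩
  choose G hG1 hG2 using hgood
  let V : Ultrafilter (Finset O) := Ultrafilter.of atTop
  have hV : ∀ H : Finset O, ∀ᶠ H' in (V : Filter (Finset O)), H ⊆ H' := fun H =>
    Ultrafilter.of_le _ (eventually_ge_atTop H)
  choose k' hk' using fun h : O => ulim V (fun H => k (G H * h))
  have hk'F : ∀ H : Finset O, ∀ᶠ H' in (V : Filter (Finset O)), ∀ h ∈ H, k (G H' * h) = k' h := fun H =>
    (eventually_all_finset H).2 (fun h _ => hk' h)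
  refine ⟨k', R, hRne, ?_, ?_, hR⟩
  · intro H
    obtain ⟨H', hH'⟩ := (hk'F H).exists
    exact ⟨G H', hG1 H', hH'⟩
  · intro i hi
    have hng : ¬ good (R.erase i) := fun h => hmin _ h (Finset.erase_ssubset hi)
    have hng' : ∃ F : Finset O, (∀ f ∈ F, Pos f) ∧ ∀ g, Pos g → ∃ f ∈ F, k (g * f) ∉ R.erase i := by
      by_contra hcon
      apply hng
      intro H hH
      by_contra hcon2
      apply hcon
      refine ⟨H, hH, fun g hg => ?_⟩
      by_contra hcon3
      apply hcon2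
      refine ⟨g, hg, fun h hh => ?_⟩
      by_contra hcon4
      exact hcon3 ⟨h, hh, hcon4⟩
    obtain ⟨F, hF, hF2⟩ := hng'
    refine ⟨F, hF, fun h hh => ?_⟩
    obtain ⟨H', hH1, hH2⟩ := ((hV (F.image (· * h))).and (hk'F (F.image (· * h)))).exists
    obtain ⟨f, hf, hf2⟩ := hF2 (G H' * h) (pos_mul (hG1 H') hh)
    have hmem : f * h ∈ F.image (· * h) := Finset.mem_image_of_mem (· * h) hf
    have h1 : k (G H' * (f * h)) ∈ R := hG2 H' (f * h) (hH1 hmem) (pos_mul (hF f hf) hh)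
    have h2 : G H' * h * f = G H' * (f * h) := by ring
    rw [h2] at hf2
    have h3 : k (G H' * (f * h)) = i := by
      by_contra hne
      exact hf2 (Finset.mem_erase.2 ⟨hne, h1⟩)
    exact ⟨f, hf, by rw [← hH2 _ hmem, h3]⟩

/-- STEP B -/
theorem free_of_core (hcore : S_core) : S_free := by
  intro κ _ c
  obtain ⟨k', R, ⟨i, hi⟩, ha, hb, -⟩ := limcol c
  obtain ⟨F, hF, hF2⟩ := hb i hi
  obtain ⟨X, hX, Y, hY, W, hW, ρ, hρ, hXY⟩ := hcore {h | Pos h ∧ k' h = i}
    ⟨fun x hx => hx.1, F, hF, fun h hh => by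
      obtain ⟨f, hf, hf2⟩ := hF2 h hh
      exact ⟨f, hf, pos_mul (hF f hf) hh, hf2⟩⟩
  classical
  obtain ⟨g, hg, hgH⟩ := ha {X, Y, W}
  have h1 := hgH X (by simp)
  have h2 := hgH Y (by simp)
  have h3 := hgH W (by simp)
  refine ⟨g * X, g * Y, g * W, ρ, pos_mul hg hX.1, pos_mul hg hY.1, pos_mul hg hW.1, hρ, ?_, ?_, ?_⟩
  · rw [h1, h2, hX.2, hY.2]
  · rw [h1, h3, hX.2, hW.2]
  · rw [hXY]
    ring

/-- a stream with all finite products in a good set -/
theorem exists_stream {κ : Type} (e : O → κ) (R : Finset κ)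
    (h : ∀ H : Finset O, (∀ h ∈ H, Pos h) → ∃ g, Pos g ∧ ∀ h ∈ H, e (g * h) ∈ R) :
    ∃ a : Stream' O, ∀ m ∈ Hindman.FP a, Pos m ∧ e m ∈ R := by
  classical
  have h' : ∀ H : Finset O, ∃ g, (∀ h ∈ H, Pos h) → Pos g ∧ ∀ h ∈ H, e (g * h) ∈ R := by
    intro H
    by_cases hH : ∀ h ∈ H, Pos h
    · obtain ⟨g, hg⟩ := h H hH
      exact ⟨g, fun _ => hg⟩
    · exact ⟨1, fun h => absurd h hH⟩
  choose pick hpick using h'
  let Hs : ℕ → Finset O := fun n => Nat.rec {1} (fun _ H => H ∪ H.image (pick H * ·)) n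
  have hHs0 : Hs 0 = {1} := rfl
  have hHsS : ∀ n, Hs (n + 1) = Hs n ∪ (Hs n).image (pick (Hs n) * ·) := fun n => rfl
  have hpos : ∀ n, ∀ x ∈ Hs n, Pos x := by
    intro n
    induction n with
    | zero =>
      intro x hx
      rw [hHs0, Finset.mem_singleton] at hx
      rw [hx]
      exact pos_one
    | succ n ih =>
      intro x hx
      rw [hHsS, Finset.mem_union, Finset.mem_image] at hx
      rcases hx with hx | ⟨y, hy, rfl⟩
      · exact ih x hx
      · exact pos_mul (hpick _ ih).1 (ih y hy)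
  let a : Stream' O := fun n => pick (Hs n)
  have key : ∀ (s : Stream' O) (m : O), m ∈ Hindman.FP s → ∀ n, s = a.drop n →
      ∀ x ∈ Hs n, Pos (x * m) ∧ e (x * m) ∈ R := by
    intro s m hm
    induction hm with
    | head' s =>
      intro n hs x hx
      have h1 : s.head = pick (Hs n) := by
        rw [hs]
        simp [Stream'.head, Stream'.drop, a, Stream'.get]
      rw [h1, mul_comm]
      exact ⟨pos_mul (hpick _ (hpos n)).1 (hpos n x hx), (hpick _ (hpos n)).2 x hx⟩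
    | tail' s m _ ih =>
      intro n hs x hx
      refine ih (n + 1) ?_ x ?_
      · rw [hs]
        exact Stream'.tail_drop'
      · rw [hHsS]
        exact Finset.mem_union_left _ hx
    | cons' s m _ ih =>
      intro n hs x hx
      have h1 : s.head = pick (Hs n) := by
        rw [hs]
        simp [Stream'.head, Stream'.drop, a, Stream'.get]
      rw [h1]
      have h2 := ih (n + 1) (by
        rw [hs]
        exact Stream'.tail_drop') (pick (Hs n) * x) (by
          rw [hHsS]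
          exact Finset.mem_union_right _ (Finset.mem_image_of_mem _ hx))
      have h3 : x * (pick (Hs n) * m) = pick (Hs n) * x * m := by ring
      rw [h3]
      exact h2
  refine ⟨a, fun m hm => ?_⟩
  have h1 := key a m hm 0 (by rfl) 1 (by rw [hHs0]; exact Finset.mem_singleton_self _)
  rwa [one_mul] at h1

theorem pos_prod {b : Stream' O} (hb : ∀ m ∈ Hindman.FP b, Pos m) (s : Finset ℕ) :
    Pos (∏ j ∈ s, b.get j) := by
  classical
  rcases s.eq_empty_or_nonempty with rfl | h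
  · rw [Finset.prod_empty]
    exact pos_one
  · exact hb _ (Hindman.FP.finsetProd b s h)

/-- STEP C -/
theorem full_of_free (hfree : S_free) : S_full := by
  classical
  intro κ _ c
  -- the universal system of solutions
  have h1 : ∀ SS : Finset (Set O), ∃ X Y W ρ : O, Pos X ∧ Pos Y ∧ Pos W ∧ Neg ρ ∧
      (∀ A ∈ SS, (X ∈ A ↔ Y ∈ A)) ∧ (∀ A ∈ SS, (X ∈ A ↔ W ∈ A)) ∧ X = rt * (W * ρ ^ 3 - Y) := by
    intro SS
    obtain ⟨X, Y, W, ρ, hX, hY, hW, hρ, hXY, hXW, heq⟩ := hfree (SS → Prop) (fun x A => x ∈ A.1)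
    refine ⟨X, Y, W, ρ, hX, hY, hW, hρ, fun A hA => ?_, fun A hA => ?_, heq⟩
    · exact iff_of_eq (congrFun hXY ⟨A, hA⟩)
    · exact iff_of_eq (congrFun hXW ⟨A, hA⟩)
  choose X Y W ρ hX hY hW hρ hXY hXW heq using h1
  let U : Ultrafilter (Finset (Set O)) := Ultrafilter.of atTop
  have hU : ∀ A : Set O, ∀ᶠ SS in (U : Filter (Finset (Set O))), A ∈ SS := by
    intro A
    have h3 : ∀ᶠ SS in (atTop : Filter (Finset (Set O))), ({A} : Finset (Set O)) ≤ SS :=
      eventually_ge_atTop _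
    have h4 : ∀ᶠ SS in (U : Filter (Finset (Set O))), ({A} : Finset (Set O)) ≤ SS :=
      Ultrafilter.of_le _ h3
    exact h4.mono fun SS h => h (Finset.mem_singleton_self A)
  choose e he using fun g : O => ulim U (fun SS => c (rt * g * ρ SS))
  obtain ⟨k', R, -, ha, hb, hc⟩ := limcol e
  obtain ⟨a, haFP⟩ := exists_stream e R hc
  obtain ⟨C, hC, b, hbC⟩ := Hindman.FP_partition_regular a
    ((fun i : κ => {x : O | Pos x ∧ e x = i}) '' (R : Set κ)) (R.finite_toSet.image _) (by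
      intro m hm
      obtain ⟨h1, h2⟩ := haFP m hm
      exact ⟨_, ⟨e m, h2, rfl⟩, h1, rfl⟩)
  obtain ⟨i, hi, rfl⟩ := hC
  have hbP : ∀ m ∈ Hindman.FP b, Pos m := fun m hm => (hbC hm).1
  have hbe : ∀ m ∈ Hindman.FP b, e m = i := fun m hm => (hbC hm).2
  obtain ⟨F, hF, hF2⟩ := hb i hi
  let v : ℕ → O := fun l => ∏ j ∈ Finset.range l, b.get j
  have hv : ∀ l, Pos (v l) := fun l => pos_prod hbP _
  have h2 : ∀ l, ∃ f ∈ F, ∀ᶠ SS in (U : Filter (Finset (Set O))), k' (f * (v l ^ 3 * X SS)) = i := by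
    intro l
    exact ulim_finset U F (fun f SS => k' (f * (v l ^ 3 * X SS)) = i)
      (fun SS => hF2 _ (pos_mul (pos_pow (hv l) 3) (hX SS)))
  choose f hfF hfU using h2
  -- pigeonhole
  obtain ⟨l, l', hll, hff⟩ : ∃ l l' : ℕ, l < l' ∧ f l = f l' := by
    obtain ⟨l, l', hne, hfl⟩ := Finite.exists_ne_map_eq_of_infinite (fun l : ℕ => (⟨f l, hfF l⟩ : F))
    have h3 : f l = f l' := congrArg Subtype.val hfl
    rcases lt_or_gt_of_ne hne with h | h
    · exact ⟨l, l', h, h3⟩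
    · exact ⟨l', l, h, h3.symm⟩
  let r : O := ∏ j ∈ Finset.Ico l l', b.get j
  have hrFP : r ∈ Hindman.FP b := Hindman.FP.finsetProd b _ (Finset.nonempty_Ico.2 hll)
  have hvr : v l' = v l * r := by
    have := Finset.prod_range_mul_prod_Ico (fun j => b.get j) hll.le
    exact this.symm
  have hre : ∀ᶠ SS in (U : Filter (Finset (Set O))), c (rt * r * ρ SS) = i := by
    have h3 := he r
    rw [hbe r hrFP] at h3
    exact h3
  let T1 : Set O := {x | k' (f l * (v l ^ 3 * x)) = i}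
  let T2 : Set O := {x | k' (f l * (v l' ^ 3 * x)) = i}
  have hfU' := hfU l'
  rw [← hff] at hfU'
  obtain ⟨SS, hS1, hS2, hS3, hS4, hS5⟩ := ((hU T1).and ((hU T2).and ((hfU l).and (hfU'.and hre)))).exists
  have hWT : W SS ∈ T1 := (hXW SS T1 hS1).1 hS3
  have hYT : Y SS ∈ T2 := (hXY SS T2 hS2).1 hS4
  have hXT : X SS ∈ T2 := hS4
  set w : O := f l * (v l ^ 3 * W SS) with hw
  set y : O := f l * (v l' ^ 3 * Y SS) with hy
  set x : O := f l * (v l' ^ 3 * X SS) with hx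
  have hwk : k' w = i := hWT
  have hyk : k' y = i := hYT
  have hxk : k' x = i := hXT
  have hwP : Pos w := pos_mul (hF _ (hfF l)) (pos_mul (pos_pow (hv l) 3) (hW SS))
  have hyP : Pos y := pos_mul (hF _ (hfF l)) (pos_mul (pos_pow (hv l') 3) (hY SS))
  have hxP : Pos x := pos_mul (hF _ (hfF l)) (pos_mul (pos_pow (hv l') 3) (hX SS))
  have hrP : Pos r := hbP r hrFP
  obtain ⟨z, hz⟩ : ∃ z : O, z = rt * r * ρ SS := ⟨_, rfl⟩
  have hzP : Pos z := by
    rw [hz]
    exact pos_lam hrP (hρ SS)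
  have hxe : x = rt * (w * (r * ρ SS) ^ 3 - y) := by
    rw [hx, hw, hy, hvr]
    have h3 := heq SS
    calc f l * ((v l * r) ^ 3 * X SS) = f l * ((v l * r) ^ 3 * (rt * (W SS * ρ SS ^ 3 - Y SS))) := by
          rw [← h3]
      _ = _ := by ring
  have heqn : 2 * x + 2 * rt * y = w * z ^ 3 := by
    have h3 := rt_sq
    rw [hz]
    rw [hxe]
    linear_combination (-(rt * w * (r * ρ SS) ^ 3)) * h3
  -- colours
  obtain ⟨g, hg, hgH⟩ := ha {w, x, y}
  have hgw : e (g * w) = i := (hgH w (by simp)).trans hwk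
  have hgx : e (g * x) = i := (hgH x (by simp)).trans hxk
  have hgy : e (g * y) = i := (hgH y (by simp)).trans hyk
  obtain ⟨SS', hS6, hS7, hS8⟩ := ((he (g * w)).and ((he (g * x)).and (he (g * y)))).exists
  rw [hgw] at hS6
  rw [hgx] at hS7
  rw [hgy] at hS8
  obtain ⟨lam, hlam⟩ : ∃ lam : O, lam = rt * g * ρ SS' := ⟨_, rfl⟩
  have hlamP : Pos lam := by
    rw [hlam]
    exact pos_lam hg (hρ SS')
  have e1 : ∀ t : O, lam * t = rt * (g * t) * ρ SS' := fun t => by rw [hlam]; ring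
  refine ⟨lam * w, lam * x, lam * y, z, pos_mul hlamP hwP, pos_mul hlamP hxP, pos_mul hlamP hyP, hzP, ?_, ?_, ?_, ?_⟩
  · rw [e1, e1, hS6, hS7]
  · rw [e1, e1, hS6, hS8]
  · rw [e1, hS6, hz, hS5]
  · linear_combination lam * heqn

/-- the reduction to the analytic core -/
theorem full_of_core : S_core → S_full := fun h => full_of_free (free_of_core h)

end Pool.Agent.H40.PR
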